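import Pool.Agent.Helper8.FH.St

/-!
# MP_121524_al, module FH11 : the Freiheitssatz from the reduced product
-/

set_option autoImplicit false

namespace Pool.Agent.Helper14.FH

open Matrix Pool.Agent.Helper8.FH

universe u v

/-- The homomorphism of the group with two elements given by an involution. -/
def hx {Q : Type u} [Group Q] (x : Q) (hxx : x * x = 1) : Multiplicative (ZMod 2) →* Q where
  toFun a := x ^ (Multiplicative.toAdd a).val
  map_one' := by simp
  map_mul' a b := by
    have h2 : x ^ 2 = 1 := by rw [pow_two, hxx]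
    rw [toAdd_mul, ← pow_add]
    generalize Multiplicative.toAdd a = c
    generalize Multiplicative.toAdd b = d
    rw [ZMod.val_add]
    conv_rhs => rw [← Nat.div_add_mod (c.val + d.val) 2, pow_add, pow_mul, h2, one_pow, one_mul]

theorem zcases (a : Multiplicative (ZMod 2)) : a = 1 ∨ a = Multiplicative.ofAdd 1 := by
  revert a
  decide

theorem hx_gen {Q : Type u} [Group Q] (x : Q) (hxx : x * x = 1) :
    hx x hxx (Multiplicative.ofAdd 1) = x := by
  show x ^ (1 : ZMod 2).val = x
  rw [show (1 : ZMod 2).val = 1 from rfl, pow_one]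

/-- The words of the elements of the free product. -/
theorem words {A : Type u} {B : Type v} [Group A] [Group B] (φ : B →* Multiplicative (ZMod 2))
    (z : Monoid.Coprod A B) : ∃ (l : List A) (a' : A),
      Monoid.Coprod.lift (1 : A →* Multiplicative (ZMod 2)) φ z =
        Multiplicative.ofAdd (l.length : ZMod 2) ∧
      ∀ (Q : Type u) [Group Q] (f : A →* Q) (x : Q) (hxx : x * x = 1),
        Monoid.Coprod.lift f ((hx x hxx).comp φ) z = (l.map (fun a => f a * x)).prod * f a' := by
  induction z using Monoid.Coprod.induction_on with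
  | inl a =>
    refine ⟨[], a, ?_, ?_⟩
    · simp
    · intro Q _ f x hxx
      simp
  | inr b =>
    rcases zcases (φ b) with hb | hb
    · refine ⟨[], 1, ?_, ?_⟩
      · simp [hb]
      · intro Q _ f x hxx
        simp [hb]
    · refine ⟨[1], 1, ?_, ?_⟩
      · simp [hb]
      · intro Q _ f x hxx
        simp [hb, hx_gen]
  | mul y z hy hz =>
    obtain ⟨l1, a1, h1, g1⟩ := hy
    obtain ⟨l2, a2, h2, g2⟩ := hz
    cases l2 with
    | nil =>
      refine ⟨l1, a1 * a2, ?_, ?_⟩
      · rw [map_mul, h1, h2]
        simp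
      · intro Q _ f x hxx
        rw [map_mul, g1 Q f x hxx, g2 Q f x hxx]
        simp [mul_assoc]
    | cons b rest =>
      refine ⟨l1 ++ (a1 * b) :: rest, a2, ?_, ?_⟩
      · rw [map_mul, h1, h2, ← ofAdd_add]
        simp
      · intro Q _ f x hxx
        rw [map_mul, g1 Q f x hxx, g2 Q f x hxx]
        simp [mul_assoc]

theorem st_fin (h : StQuo.{u}) : StFin.{u, v} := by
  intro A B _ _ hA φ r hr m hm
  obtain ⟨l, a', hl, hw⟩ := words φ r
  rw [hl] at hr
  -- the length is odd
  have hodd : Odd l.length := by
    by_contra hne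
    rw [Nat.not_odd_iff_even] at hne
    apply hr
    rw [(ZMod.natCast_eq_zero_iff_even).2 hne]
    rfl
  obtain ⟨b, rest, rfl⟩ : ∃ b rest, l = b :: rest := by
    cases l with
    | nil => simp at hodd
    | cons b rest => exact ⟨b, rest, rfl⟩
  have hev : Even rest.length := by
    rw [List.length_cons] at hodd
    rcases hodd with ⟨c, hc⟩
    exact ⟨c, by omega⟩
  -- the letters
  set L : List A := (a' * b) :: rest with hL
  obtain ⟨Q, hQ, f, x, hinj, hxx, hword⟩ := h A hA rest.length hev (fun i => L.get i)
  have hofn : (List.ofFn fun i : Fin (rest.length + 1) => f (L.get i) * x) =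
      L.map (fun a => f a * x) := by
    have hm1 : List.map (fun a => f a * x) (List.ofFn fun i : Fin L.length => L.get i) =
        List.ofFn ((fun a => f a * x) ∘ fun i : Fin L.length => L.get i) := List.map_ofFn
    rw [List.ofFn_get] at hm1
    exact hm1.symm
  rw [hofn] at hword
  set Λ : Monoid.Coprod A B →* Q := Monoid.Coprod.lift f ((hx x hxx).comp φ) with hΛ
  have hr2 : Λ r * Λ r = 1 := by
    have e1 : Λ r = (f a')⁻¹ * (L.map (fun a => f a * x)).prod * f a' := by
      rw [hΛ, hw Q f x hxx, hL]
      simp [mul_assoc]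
    rw [e1]
    have e2 : (f a')⁻¹ * (L.map (fun a => f a * x)).prod * f a' *
        ((f a')⁻¹ * (L.map (fun a => f a * x)).prod * f a') =
        (f a')⁻¹ * ((L.map (fun a => f a * x)).prod * (L.map (fun a => f a * x)).prod) * f a' := by
      group
    rw [e2, hword]
    simp
  have hker : Subgroup.normalClosure ({r ^ m} : Set (Monoid.Coprod A B)) ≤ Λ.ker := by
    apply Subgroup.normalClosure_le_normal
    intro y hy
    rw [Set.mem_singleton_iff] at hy
    subst hy
    show Λ (r ^ m) = 1
    obtain ⟨c, rfl⟩ := hm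
    rw [map_pow, ← two_mul, pow_mul, pow_two, hr2, one_pow]
  rw [injective_iff_map_eq_one]
  intro a ha
  have hmem : (Monoid.Coprod.inl a : Monoid.Coprod A B) ∈
      Subgroup.normalClosure ({r ^ m} : Set (Monoid.Coprod A B)) := by
    rw [MonoidHom.comp_apply] at ha
    exact (QuotientGroup.eq_one_iff _).1 ha
  have h1 : Λ (Monoid.Coprod.inl a) = 1 := hker hmem
  rw [hΛ, Monoid.Coprod.lift_apply_inl] at h1
  apply hinj
  rw [h1, map_one]

end Pool.Agent.Helper14.FH
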