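import Pool.Agent.Helper8.FH.St

/-!
# MP_121524_al, module FH9 : the case of unitary matrices
-/

set_option autoImplicit false

namespace Pool.Agent.Helper14.FH

open Matrix Topology Filter Pool.Agent.Helper8.FH

/-! ### The realification -/

section Real

variable {n : ℕ}

theorem rl_one : rl (1 : Matrix (Fin n) (Fin n) ℂ) = 1 := by
  ext i j
  rcases i with i | i <;> rcases j with j | j <;>
    simp [rl, Matrix.one_apply] <;> split_ifs <;> simp

theorem rl_add (u v : Matrix (Fin n) (Fin n) ℂ) : rl (u + v) = rl u + rl v := by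
  ext i j
  rcases i with i | i <;> rcases j with j | j <;> simp [rl]
  ring

theorem rl_mul (u v : Matrix (Fin n) (Fin n) ℂ) : rl (u * v) = rl u * rl v := by
  ext i j
  rcases i with i | i <;> rcases j with j | j <;>
    simp [rl, Matrix.mul_apply, Complex.mul_re, Complex.mul_im, Finset.sum_add_distrib,
      Finset.sum_sub_distrib, Finset.sum_neg_distrib] <;> ring

theorem rl_star (u : Matrix (Fin n) (Fin n) ℂ) : rl uᴴ = (rl u)ᵀ := by
  ext i j
  rcases i with i | i <;> rcases j with j | j <;> simp [rl]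

theorem rl_cont : Continuous (rl : Matrix (Fin n) (Fin n) ℂ → Matrix (Ix n) (Ix n) ℝ) := by
  refine continuous_matrix fun i j => ?_
  rcases i with i | i <;> rcases j with j | j <;> simp only [rl, fromBlocks_apply₁₁,
    fromBlocks_apply₁₂, fromBlocks_apply₂₁, fromBlocks_apply₂₂, Matrix.map_apply,
    Matrix.neg_apply]
  · exact Complex.continuous_re.comp (continuous_id.matrix_elem i j)
  · exact (Complex.continuous_im.comp (continuous_id.matrix_elem i j)).neg
  · exact Complex.continuous_im.comp (continuous_id.matrix_elem i j)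
  · exact Complex.continuous_re.comp (continuous_id.matrix_elem i j)

end Real

/-! ### The Cayley transform -/

section Cayley

variable {m : ℕ}

theorem cay_cay (O : Matrix (Ix m) (Ix m) ℝ) (hO : IsUnit (1 + O)) : cay (cay O) = O := by
  have hdet : IsUnit (1 + O).det := (Matrix.isUnit_iff_isUnit_det _).1 hO
  have h1 : (1 + O) * (1 + O)⁻¹ = 1 := Matrix.mul_nonsing_inv _ hdet
  have h2 : (1 + O)⁻¹ * (1 + O) = 1 := Matrix.nonsing_inv_mul _ hdet
  have hp : 1 + cay O = (2 : ℝ) • (1 + O)⁻¹ := by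
    unfold cay
    calc 1 + (1 - O) * (1 + O)⁻¹ = (1 + O) * (1 + O)⁻¹ + (1 - O) * (1 + O)⁻¹ := by rw [h1]
      _ = ((1 + O) + (1 - O)) * (1 + O)⁻¹ := (add_mul _ _ _).symm
      _ = (2 : ℝ) • (1 + O)⁻¹ := by
        rw [show (1 + O) + (1 - O) = (2 : ℝ) • (1 : Matrix (Ix m) (Ix m) ℝ) by
          rw [two_smul]; abel, smul_mul_assoc, one_mul]
  have hm : 1 - cay O = (2 : ℝ) • (O * (1 + O)⁻¹) := by
    unfold cay
    calc 1 - (1 - O) * (1 + O)⁻¹ = (1 + O) * (1 + O)⁻¹ - (1 - O) * (1 + O)⁻¹ := by rw [h1]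
      _ = ((1 + O) - (1 - O)) * (1 + O)⁻¹ := (sub_mul _ _ _).symm
      _ = (2 : ℝ) • (O * (1 + O)⁻¹) := by
        rw [show (1 + O) - (1 - O) = (2 : ℝ) • O by
          rw [two_smul]; abel, smul_mul_assoc]
  have hi : (1 + cay O)⁻¹ = (2 : ℝ)⁻¹ • (1 + O) := by
    rw [hp]
    apply Matrix.inv_eq_right_inv
    rw [smul_mul_smul_comm, h2, mul_inv_cancel₀ (two_ne_zero), one_smul]
  show (1 - cay O) * (1 + cay O)⁻¹ = O
  rw [hi, hm, smul_mul_smul_comm, mul_inv_cancel₀ (two_ne_zero), one_smul, mul_assoc, h2,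
    mul_one]

theorem cay_skew (O : Matrix (Ix m) (Ix m) ℝ) (hO : IsUnit (1 + O)) (hOO : Oᵀ * O = 1) :
    (cay O)ᵀ = -cay O := by
  have hdet : IsUnit (1 + O).det := (Matrix.isUnit_iff_isUnit_det _).1 hO
  have h1 : (1 + O) * (1 + O)⁻¹ = 1 := Matrix.mul_nonsing_inv _ hdet
  have h2 : (1 + O)⁻¹ * (1 + O) = 1 := Matrix.nonsing_inv_mul _ hdet
  have h3 : ((1 + O)⁻¹)ᵀ * (1 + O)ᵀ = 1 := by
    rw [← Matrix.transpose_mul, h1, Matrix.transpose_one]
  have h4 : (1 + O)ᵀ * ((1 + O)⁻¹)ᵀ = 1 := by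
    rw [← Matrix.transpose_mul, h2, Matrix.transpose_one]
  -- `(1 + O)ᵀ (1 - O) = - (1 - O)ᵀ (1 + O)`
  have h5 : (1 - O)ᵀ * (1 + O) = -((1 + O)ᵀ * (1 - O)) := by
    rw [Matrix.transpose_sub, Matrix.transpose_add, Matrix.transpose_one]
    have : (1 - Oᵀ) * (1 + O) = 1 + O - Oᵀ - Oᵀ * O := by noncomm_ring
    rw [this]
    have : (1 + Oᵀ) * (1 - O) = 1 - O + Oᵀ - Oᵀ * O := by noncomm_ring
    rw [this, hOO]
    abel
  unfold cay
  rw [Matrix.transpose_mul]
  calc ((1 + O)⁻¹)ᵀ * (1 - O)ᵀ = ((1 + O)⁻¹)ᵀ * ((1 - O)ᵀ * ((1 + O) * (1 + O)⁻¹)) := by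
        rw [h1, mul_one]
    _ = ((1 + O)⁻¹)ᵀ * ((1 - O)ᵀ * (1 + O)) * (1 + O)⁻¹ := by simp only [mul_assoc]
    _ = -(((1 + O)⁻¹)ᵀ * (1 + O)ᵀ * ((1 - O) * (1 + O)⁻¹)) := by
        rw [h5]; simp only [mul_assoc, mul_neg, neg_mul]
    _ = -((1 - O) * (1 + O)⁻¹) := by rw [h3, one_mul]

theorem skew_coord (M : Matrix (Ix m) (Ix m) ℝ) (hM : Mᵀ = -M) : skew (coord M) = M := by
  have h : ∀ i j, M j i = -M i j := fun i j => by
    have := congrFun (congrFun hM i) j
    simpa using this
  have h0 : ∀ i, M i i = 0 := fun i => by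
    have := h i i
    linarith
  ext i j
  rcases i with i | i <;> rcases j with j | j
  · simp only [skew, coord, fromBlocks_apply₁₁, of_apply]
    split_ifs with h1 h2
    · rfl
    · rw [h]; ring
    · have : i = j := le_antisymm (not_lt.1 h2) (not_lt.1 h1)
      rw [this, h0]
  · simp only [skew, coord, fromBlocks_apply₁₂, of_apply]
  · simp only [skew, coord, fromBlocks_apply₂₁, of_apply]
    rw [h]; ring
  · simp only [skew, coord, fromBlocks_apply₂₂, of_apply]
    rcases lt_trichotomy i j with h1 | h1 | h1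
    · simp [h1, lt_asymm h1]
    · subst h1
      simp [h0]
    · simp only [h1, lt_asymm h1, dif_neg, dif_pos, if_false, not_false_eq_true]
      rw [h (Sum.inr j) (Sum.inr i)]

end Cayley

/-! ### The unit complex numbers -/

/-- Unit complex numbers converging to `1`. -/
noncomputable def zz (N : ℕ) : ℂ :=
  (1 + ((1 / ((N : ℝ) + 1) : ℝ) : ℂ) * Complex.I) / (1 - ((1 / ((N : ℝ) + 1) : ℝ) : ℂ) * Complex.I)

theorem den_ne (t : ℝ) : (1 - (t : ℂ) * Complex.I) ≠ 0 := by
  intro h
  have := congrArg Complex.re h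
  simp at this

theorem zz_inj : Function.Injective zz := by
  intro a b hab
  unfold zz at hab
  rw [div_eq_div_iff (den_ne _) (den_ne _)] at hab
  generalize ha' : 1 / ((a : ℝ) + 1) = s at hab
  generalize hb' : 1 / ((b : ℝ) + 1) = t at hab
  have h1 := congrArg Complex.im hab
  simp at h1
  have h2 : ((a : ℝ) + 1)⁻¹ = ((b : ℝ) + 1)⁻¹ := by
    rw [← one_div, ← one_div, ha', hb']
    linarith
  have h3 := inv_injective h2
  have h4 : (a : ℝ) = b := by linarith
  exact_mod_cast h4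

theorem zz_star (N : ℕ) : star (zz N) * zz N = 1 := by
  unfold zz
  have h1 := den_ne (1 / ((N : ℝ) + 1))
  have h2 : (1 + ((1 / ((N : ℝ) + 1) : ℝ) : ℂ) * Complex.I) ≠ 0 := by
    have := den_ne (-(1 / ((N : ℝ) + 1)))
    intro h
    apply this
    rw [← h]
    push_cast
    ring
  rw [star_div₀]
  have e1 : star (1 + ((1 / ((N : ℝ) + 1) : ℝ) : ℂ) * Complex.I) =
      1 - ((1 / ((N : ℝ) + 1) : ℝ) : ℂ) * Complex.I := by
    rw [star_add, star_mul', star_one]
    simp only [Complex.star_def, Complex.conj_ofReal, Complex.conj_I]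
    ring
  have e2 : star (1 - ((1 / ((N : ℝ) + 1) : ℝ) : ℂ) * Complex.I) =
      1 + ((1 / ((N : ℝ) + 1) : ℝ) : ℂ) * Complex.I := by
    rw [star_sub, star_mul', star_one]
    simp only [Complex.star_def, Complex.conj_ofReal, Complex.conj_I]
    ring
  rw [e1, e2]
  field_simp

theorem zz_tendsto : Tendsto zz atTop (𝓝 1) := by
  have h1 : Tendsto (fun N : ℕ => 1 / ((N : ℝ) + 1)) atTop (𝓝 0) :=
    tendsto_one_div_add_atTop_nhds_zero_nat
  have h2 : Continuous fun t : ℝ => (1 + (t : ℂ) * Complex.I) / (1 - (t : ℂ) * Complex.I) := by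
    refine Continuous.div (by fun_prop) (by fun_prop) fun t => den_ne t
  have h3 := (h2.tendsto 0).comp h1
  have h4 : (1 + ((0 : ℝ) : ℂ) * Complex.I) / (1 - ((0 : ℝ) : ℂ) * Complex.I) = 1 := by simp
  rw [h4] at h3
  exact h3

/-- Only finitely many `z` are bad. -/
theorem fin_bad {n : ℕ} (u : Matrix (Fin n) (Fin n) ℂ) : {z : ℂ | (1 + z • u).det = 0}.Finite := by
  -- the polynomial `det (1 + X u)`
  set p : Polynomial ℂ := (1 + (Polynomial.X : Polynomial ℂ) • u.map Polynomial.C).det with hp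
  have hev : ∀ z, p.eval z = (1 + z • u).det := by
    intro z
    have h1 := (Polynomial.evalRingHom z).map_det
      (1 + (Polynomial.X : Polynomial ℂ) • u.map Polynomial.C)
    rw [Polynomial.coe_evalRingHom, ← hp] at h1
    rw [h1]
    congr 1
    ext i j
    simp [RingHom.mapMatrix_apply, Matrix.map_apply, Matrix.one_apply]
    split_ifs <;> simp [mul_comm]
  have hp0 : p ≠ 0 := by
    intro h
    have := hev 0
    rw [h] at this
    simp at this
  refine (p.rootSet_finite ℂ).subset ?_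
  intro z hz
  rw [Polynomial.mem_rootSet]
  refine ⟨hp0, ?_⟩
  rw [Polynomial.aeval_def, Polynomial.eval₂_eq_eval_map, Algebra.algebraMap_self,
    Polynomial.map_id, hev]
  exact hz

/-- The set of symmetric involutions. -/
def KI (n : ℕ) : Set (Matrix (Ix n) (Ix n) ℝ) := {x | xᵀ = x ∧ x * x = 1}

theorem ki_compact (n : ℕ) : IsCompact (KI n) := by
  have h1 : IsCompact (Set.pi Set.univ fun _ : Ix n => Set.pi Set.univ fun _ : Ix n =>
      Set.Icc (-1 : ℝ) 1) :=
    isCompact_univ_pi fun _ => isCompact_univ_pi fun _ => isCompact_Icc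
  refine IsCompact.of_isClosed_subset h1 ?_ ?_
  · exact (isClosed_eq continuous_id.matrix_transpose continuous_id).inter
      (isClosed_eq (continuous_id.mul continuous_id) continuous_const)
  · rintro x ⟨hs, hi⟩ i - j -
    have h2 : (x * x) i i = 1 := by rw [hi]; simp
    rw [Matrix.mul_apply] at h2
    have h3 : ∀ l, x i l * x l i = x i l ^ 2 := fun l => by
      have : x l i = x i l := by
        have := congrFun (congrFun hs i) l
        simpa using this
      rw [this, pow_two]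
    simp only [h3] at h2
    have h4 : x i j ^ 2 ≤ 1 := by
      rw [← h2]
      exact Finset.single_le_sum (f := fun l => x i l ^ 2) (fun l _ => sq_nonneg _)
        (Finset.mem_univ j)
    exact ⟨by nlinarith, by nlinarith⟩

theorem word_cont {n k : ℕ} : Continuous
    fun q : (Fin k → Matrix (Ix n) (Ix n) ℝ) × Matrix (Ix n) (Ix n) ℝ => word q.1 q.2 := by
  unfold word
  simp only [List.ofFn_eq_map]
  refine continuous_list_prod _ fun i _ => ?_
  exact ((continuous_apply i).comp continuous_fst).mul continuous_snd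

theorem st_uni (h : StAll) : StUni := by
  intro n k hk u hu
  have hfin : (⋃ i, {z : ℂ | (1 + z • u i).det = 0}).Finite :=
    Set.finite_iUnion fun i => fin_bad (u i)
  have hev : ∀ᶠ N in atTop, ∀ i, (1 + zz N • u i).det ≠ 0 := by
    rw [← Nat.cofinite_eq_atTop]
    filter_upwards [(hfin.preimage zz_inj.injOn).compl_mem_cofinite] with N hN i hi
    exact hN (Set.mem_iUnion.2 ⟨i, hi⟩)
  have hsol : ∀ᶠ N in atTop, ∃ x ∈ KI n,
      word (fun i => rl (zz N • u i)) x * word (fun i => rl (zz N • u i)) x = 1 := by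
    filter_upwards [hev] with N hN
    have hunit : ∀ i, IsUnit (1 + rl (zz N • u i)) := by
      intro i
      have h1 : IsUnit (1 + zz N • u i).det := isUnit_iff_ne_zero.2 (hN i)
      have h2 : (1 + zz N • u i) * (1 + zz N • u i)⁻¹ = 1 := Matrix.mul_nonsing_inv _ h1
      have h3 : (1 + zz N • u i)⁻¹ * (1 + zz N • u i) = 1 := Matrix.nonsing_inv_mul _ h1
      have h4 : 1 + rl (zz N • u i) = rl (1 + zz N • u i) := by rw [rl_add, rl_one]
      rw [h4]
      exact ⟨⟨rl (1 + zz N • u i), rl (1 + zz N • u i)⁻¹, by rw [← rl_mul, h2, rl_one],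
        by rw [← rl_mul, h3, rl_one]⟩, rfl⟩
    have horth : ∀ i, (rl (zz N • u i))ᵀ * rl (zz N • u i) = 1 := by
      intro i
      rw [← rl_star, ← rl_mul]
      have h1 : (u i)ᴴ * u i = 1 := (Matrix.mem_unitaryGroup_iff').1 (hu i)
      rw [Matrix.conjTranspose_smul, smul_mul_smul_comm, h1, zz_star, one_smul, rl_one]
    obtain ⟨x, y, hxy⟩ := h n k hk fun i => coord (cay (rl (zz N • u i)))
    have hcay : (fun i => cay (skew (coord (cay (rl (zz N • u i)))))) =
        fun i => rl (zz N • u i) := by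
      funext i
      rw [skew_coord _ (cay_skew _ (hunit i) (horth i)), cay_cay _ (hunit i)]
    have heq := hxy.eq
    rw [hcay] at heq
    refine ⟨x, ⟨hxy.xs, hxy.xi⟩, ?_⟩
    have hy : word (fun i => rl (zz N • u i)) x = y := by
      calc word (fun i => rl (zz N • u i)) x = word (fun i => rl (zz N • u i)) x * (y * y) := by
            rw [hxy.yi, mul_one]
        _ = y := by rw [← mul_assoc, heq, one_mul]
    rw [hy, hxy.yi]
  obtain ⟨N0, hN0⟩ := eventually_atTop.1 hsol
  choose x hxK hxw using fun N => hN0 (N + N0) (Nat.le_add_left _ _)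
  have : FirstCountableTopology (Matrix (Ix n) (Ix n) ℝ) :=
    inferInstanceAs (FirstCountableTopology (Ix n → Ix n → ℝ))
  obtain ⟨a, haK, φ, hφ, hlim⟩ := (ki_compact n).tendsto_subseq hxK
  refine ⟨a, haK.1, haK.2, ?_⟩
  have h1 : Tendsto (fun N => zz (φ N + N0)) atTop (𝓝 1) :=
    zz_tendsto.comp ((tendsto_add_atTop_nat N0).comp hφ.tendsto_atTop)
  have h2 : Tendsto (fun N => (fun i => rl (zz (φ N + N0) • u i), x (φ N))) atTop
      (𝓝 ((fun i => rl ((1 : ℂ) • u i)), a)) := by
    refine Tendsto.prodMk_nhds ?_ hlim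
    rw [tendsto_pi_nhds]
    intro i
    exact (rl_cont.tendsto _).comp (h1.smul_const (u i))
  have h3 := ((word_cont.mul word_cont).tendsto _).comp h2
  have h4 : Tendsto ((fun q : (Fin (k + 1) → Matrix (Ix n) (Ix n) ℝ) × Matrix (Ix n) (Ix n) ℝ =>
      word q.1 q.2 * word q.1 q.2) ∘ fun N => (fun i => rl (zz (φ N + N0) • u i), x (φ N)))
      atTop (𝓝 1) := by
    refine tendsto_const_nhds.congr fun N => ?_
    exact (hxw (φ N)).symm
  have h5 := tendsto_nhds_unique h3 h4
  simp only [Pi.mul_apply, one_smul] at h5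
  exact h5

end Pool.Agent.Helper14.FH
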